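import Mathlib

namespace Pool.Agent.Results.MP_913ab3_an.Increasing

open Real Filter Topology Finset

noncomputable def f (c : ℝ) : ℝ := c / (1 + c)

noncomputable def A (x d : ℝ) : ℝ := 2 / 5 * (1 - x) * f d - 3 / 4 * (1 - x) * (d / (1 + d) ^ 2)

noncomputable def H (x : ℝ) (m : ℕ) : ℝ := A x (x ^ m) - m * ((1 + x) ^ 2 / 4) * f (x ^ m)

noncomputable def G (x : ℝ) (n : ℕ) : ℝ :=
  (1 + x ^ 2) * f (x ^ n) - (1 - x ^ 2) * n * (x ^ n / (1 + x ^ n) ^ 2)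

theorem poly (x y s t : ℝ) (hx : 0 ≤ x) (hy : 0 ≤ y) (hs : 0 ≤ s) (ht : 0 ≤ t) :
    0 ≤ 2 * x ^ 0 * y ^ 9 * s ^ 0 * t ^ 4 + 8 * x ^ 0 * y ^ 9 * s ^ 1 * t ^ 3 +
      12 * x ^ 0 * y ^ 9 * s ^ 2 * t ^ 2 + 8 * x ^ 0 * y ^ 9 * s ^ 3 * t ^ 1 +
      2 * x ^ 0 * y ^ 9 * s ^ 4 * t ^ 0 + 25 * x ^ 1 * y ^ 8 * s ^ 0 * t ^ 4 +
      87 * x ^ 1 * y ^ 8 * s ^ 1 * t ^ 3 + 111 * x ^ 1 * y ^ 8 * s ^ 2 * t ^ 2 +
      61 * x ^ 1 * y ^ 8 * s ^ 3 * t ^ 1 + 12 * x ^ 1 * y ^ 8 * s ^ 4 * t ^ 0 +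
      123 * x ^ 2 * y ^ 7 * s ^ 0 * t ^ 4 + 402 * x ^ 2 * y ^ 7 * s ^ 1 * t ^ 3 +
      468 * x ^ 2 * y ^ 7 * s ^ 2 * t ^ 2 + 222 * x ^ 2 * y ^ 7 * s ^ 3 * t ^ 1 +
      33 * x ^ 2 * y ^ 7 * s ^ 4 * t ^ 0 + 329 * x ^ 3 * y ^ 6 * s ^ 0 * t ^ 4 +
      1049 * x ^ 3 * y ^ 6 * s ^ 1 * t ^ 3 + 1180 * x ^ 3 * y ^ 6 * s ^ 2 * t ^ 2 +
      529 * x ^ 3 * y ^ 6 * s ^ 3 * t ^ 1 + 69 * x ^ 3 * y ^ 6 * s ^ 4 * t ^ 0 +
      539 * x ^ 4 * y ^ 5 * s ^ 0 * t ^ 4 + 1723 * x ^ 4 * y ^ 5 * s ^ 1 * t ^ 3 +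
      1951 * x ^ 4 * y ^ 5 * s ^ 2 * t ^ 2 + 889 * x ^ 4 * y ^ 5 * s ^ 3 * t ^ 1 +
      122 * x ^ 4 * y ^ 5 * s ^ 4 * t ^ 0 + 567 * x ^ 5 * y ^ 4 * s ^ 0 * t ^ 4 +
      1863 * x ^ 5 * y ^ 4 * s ^ 1 * t ^ 3 + 2171 * x ^ 5 * y ^ 4 * s ^ 2 * t ^ 2 +
      1021 * x ^ 5 * y ^ 4 * s ^ 3 * t ^ 1 + 146 * x ^ 5 * y ^ 4 * s ^ 4 * t ^ 0 +
      385 * x ^ 6 * y ^ 3 * s ^ 0 * t ^ 4 + 1332 * x ^ 6 * y ^ 3 * s ^ 1 * t ^ 3 +
      1599 * x ^ 6 * y ^ 3 * s ^ 2 * t ^ 2 + 744 * x ^ 6 * y ^ 3 * s ^ 3 * t ^ 1 +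
      92 * x ^ 6 * y ^ 3 * s ^ 4 * t ^ 0 + 163 * x ^ 7 * y ^ 2 * s ^ 0 * t ^ 4 +
      607 * x ^ 7 * y ^ 2 * s ^ 1 * t ^ 3 + 748 * x ^ 7 * y ^ 2 * s ^ 2 * t ^ 2 +
      320 * x ^ 7 * y ^ 2 * s ^ 3 * t ^ 1 + 16 * x ^ 7 * y ^ 2 * s ^ 4 * t ^ 0 +
      39 * x ^ 8 * y ^ 1 * s ^ 0 * t ^ 4 + 159 * x ^ 8 * y ^ 1 * s ^ 1 * t ^ 3 +
      212 * x ^ 8 * y ^ 1 * s ^ 2 * t ^ 2 + 108 * x ^ 8 * y ^ 1 * s ^ 3 * t ^ 1 +
      16 * x ^ 8 * y ^ 1 * s ^ 4 * t ^ 0 + 4 * x ^ 9 * y ^ 0 * s ^ 0 * t ^ 4 +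
      18 * x ^ 9 * y ^ 0 * s ^ 1 * t ^ 3 + 32 * x ^ 9 * y ^ 0 * s ^ 2 * t ^ 2 +
      40 * x ^ 9 * y ^ 0 * s ^ 3 * t ^ 1 + 32 * x ^ 9 * y ^ 0 * s ^ 4 * t ^ 0 := by
  positivity

theorem I2 {x d : ℝ} (h0 : 0 < x) (h1 : x < 1) (hd : 0 < d) (hdx : d ≤ x) :
    A x d - A x (d * x ^ 2) ≤
      (1 + x ^ 2) * f (d * x) - (1 + x) ^ 2 / 4 * (f d + f (d * x ^ 2)) := by
  obtain ⟨s, rfl⟩ : ∃ s, d = x * s := ⟨d / x, by field_simp⟩
  have hs : 0 < s := (mul_pos_iff_of_pos_left h0).1 hd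
  have hs1 : s ≤ 1 := by nlinarith
  have := poly x (1 - x) s (1 - s) h0.le (by linarith) hs.le (by linarith)
  rw [← sub_nonneg]
  have e := mul_nonneg this (show 0 ≤ x * s * (1 - x) ^ 2 /
    (20 * (1 + x * s * x) * (1 + x * s) ^ 2 * (1 + x * s * x ^ 2) ^ 2) by positivity)
  refine e.trans_eq ?_
  unfold A f
  field_simp
  ring

theorem I1 {x d : ℝ} (h0 : 0 < x) (h1 : x < 1) (hd : 0 < d) :
    (1 - x ^ 2) * (d * x / (1 + d * x) ^ 2) ≤ (1 + x) ^ 2 / 4 * (f d - f (d * x ^ 2)) := by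
  rw [← sub_nonneg]
  have h2 : 0 < 1 - x ^ 2 := by nlinarith
  have e : 0 ≤ (1 - x ^ 2) * d * ((1 - x) * (1 - d * x)) ^ 2 /
    (4 * (1 + d * x) ^ 2 * (1 + d) * (1 + d * x ^ 2)) := by positivity
  refine e.trans_eq ?_
  unfold f
  field_simp
  ring

theorem tele {x : ℝ} (h0 : 0 < x) (h1 : x < 1) (m : ℕ) (hm : 1 ≤ m) :
    H x m - H x (m + 2) ≤ G x (m + 1) := by
  have hd : 0 < x ^ m := by positivity
  have hdx : x ^ m ≤ x := by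
    simpa using pow_le_pow_of_le_one h0.le h1.le hm
  have a := I2 h0 h1 hd hdx
  have b := mul_le_mul_of_nonneg_left (I1 h0 h1 hd) (show (0 : ℝ) ≤ m + 1 by positivity)
  unfold H G
  rw [pow_add x m 2, pow_succ x m]
  push_cast
  linarith

theorem base {x : ℝ} (h0 : 0 < x) (h1 : x < 1) : x ^ 2 * ((1 - x) / 100) ≤ G x 1 + H x 2 := by
  have e : G x 1 + H x 2 =
      x ^ 2 * ((1 - x) * (0.15 - 0.5 * x + 0.9 * x ^ 2 - 0.5 * x ^ 3) / (1 + x ^ 2) ^ 2) := by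
    unfold G H A f
    field_simp
    ring
  rw [e]
  refine mul_le_mul_of_nonneg_left ?_ (by positivity)
  rw [div_le_div_iff₀ (by norm_num) (by positivity), mul_assoc]
  refine mul_le_mul_of_nonneg_left ?_ (by linarith)
  have h3 : x ^ 2 ≤ 1 := by nlinarith
  have h2 : (1 + x ^ 2) ^ 2 ≤ 4 := by nlinarith [sq_nonneg x]
  nlinarith [sq_nonneg (x - 1 / 2), mul_nonneg (sq_nonneg (x - 1 / 2)) (sub_pos.2 h1).le,
    mul_pos h0 h0, mul_pos h0 (sub_pos.2 h1)]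

theorem H_le {x : ℝ} (h0 : 0 < x) (h1 : x < 1) (m : ℕ) : H x m ≤ x ^ m := by
  have hd : 0 < x ^ m := by positivity
  have a : f (x ^ m) ≤ x ^ m := div_le_self hd.le (by linarith)
  have b : 0 ≤ f (x ^ m) := by unfold f; positivity
  have c : 0 ≤ 3 / 4 * (1 - x) * (x ^ m / (1 + x ^ m) ^ 2) := by
    have := sub_pos.2 h1; positivity
  have d : 0 ≤ m * ((1 + x) ^ 2 / 4) * f (x ^ m) := by positivity
  unfold H A
  nlinarith

theorem sumG {x : ℝ} (h0 : 0 < x) (h1 : x < 1) (N : ℕ) :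
    x ^ 2 * ((1 - x) / 100 - x ^ N) ≤ ∑ j ∈ range (N + 1), G x (2 * j + 1) := by
  have h : G x 1 + H x 2 - H x (2 * N + 2) ≤ ∑ j ∈ range (N + 1), G x (2 * j + 1) := by
    induction N with
    | zero => simp
    | succ N ih =>
      rw [sum_range_succ]
      have := tele h0 h1 (2 * N + 2) (by omega)
      rw [show 2 * (N + 1) + 2 = 2 * N + 2 + 2 by ring, show 2 * (N + 1) + 1 = 2 * N + 2 + 1 by ring]
      linarith
  have a := base h0 h1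
  have b := H_le h0 h1 (2 * N + 2)
  have c : x ^ (2 * N + 2) ≤ x ^ 2 * x ^ N := by
    rw [← pow_add]; exact pow_le_pow_of_le_one h0.le h1.le (by omega)
  linarith

theorem deriv1 {x : ℝ} (h0 : 0 < x) (n : ℕ) :
    HasDerivAt (fun x : ℝ => (x⁻¹ - x) * f (x ^ (n + 1))) (-G x (n + 1) / x ^ 2) x := by
  have h1 : HasDerivAt (fun x : ℝ => x ^ (n + 1)) (((n + 1 : ℕ) : ℝ) * x ^ n) x := by
    simpa using hasDerivAt_pow (n + 1) x
  have h2 := ((hasDerivAt_inv h0.ne').sub (hasDerivAt_id x)).mul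
    (h1.div (h1.const_add 1) (by positivity))
  refine h2.congr_deriv ?_
  unfold G f
  simp only [Pi.sub_apply, Pi.div_apply, id]
  field_simp
  ring

noncomputable def T (x : ℝ) : ℝ := (x⁻¹ - x) * ∑' j : ℕ, f (x ^ (2 * j + 1))

theorem summ {x : ℝ} (h0 : 0 < x) (h1 : x < 1) : Summable fun j : ℕ => f (x ^ (2 * j + 1)) :=
  Summable.of_nonneg_of_le (fun j => by unfold f; positivity)
    (fun j => (div_le_self (by positivity) (by linarith [pow_pos h0 (2 * j + 1)])).trans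
      (pow_le_pow_of_le_one h0.le h1.le (by omega))) (summable_geometric_of_lt_one h0.le h1)

theorem T_anti {a b : ℝ} (h0 : 0 < a) (hab : a < b) (h1 : b < 1) : T b < T a := by
  have key : ∀ N : ℕ, (b - a) * ((1 - b) / 100 - b ^ N) ≤
      (a⁻¹ - a) * ∑ j ∈ range (N + 1), f (a ^ (2 * j + 1)) -
      (b⁻¹ - b) * ∑ j ∈ range (N + 1), f (b ^ (2 * j + 1)) := by
    intro N
    have hd : ∀ x, 0 < x → HasDerivAt
        (fun x : ℝ => ∑ j ∈ range (N + 1), (x⁻¹ - x) * f (x ^ (2 * j + 1)))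
        (∑ j ∈ range (N + 1), -G x (2 * j + 1) / x ^ 2) x := fun x hx =>
      HasDerivAt.fun_sum fun j _ => deriv1 hx (2 * j)
    obtain ⟨c, hc, he⟩ := exists_hasDerivAt_eq_slope _ _ hab
      (fun x hx => (hd x (h0.trans_le hx.1)).continuousAt.continuousWithinAt)
      (fun x hx => hd x (h0.trans hx.1))
    have hc0 : 0 < c := h0.trans hc.1
    have h2 := sumG hc0 (hc.2.trans h1) N
    rw [← sum_div, sum_neg_distrib, ← mul_sum, ← mul_sum, eq_div_iff (sub_pos.2 hab).ne'] at he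
    have h3 : (1 - c) / 100 - c ^ N ≤ (∑ j ∈ range (N + 1), G c (2 * j + 1)) / c ^ 2 := by
      rw [le_div_iff₀ (by positivity)]; linarith
    have h4 : c ^ N ≤ b ^ N := pow_le_pow_left₀ hc0.le hc.2.le N
    have h5 := mul_le_mul_of_nonneg_left (show (1 - b) / 100 - b ^ N ≤ _ from
      le_trans (by linarith [hc.2]) h3) (sub_pos.2 hab).le
    rw [neg_div] at he
    linarith
  have t1 : Tendsto (fun N : ℕ => (b - a) * ((1 - b) / 100 - b ^ N)) atTop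
      (𝓝 ((b - a) * ((1 - b) / 100 - 0))) :=
    (tendsto_const_nhds.sub (tendsto_pow_atTop_nhds_zero_of_lt_one (h0.trans hab).le h1)).const_mul _
  have t2 : ∀ x, 0 < x → x < 1 → Tendsto
      (fun N : ℕ => (x⁻¹ - x) * ∑ j ∈ range (N + 1), f (x ^ (2 * j + 1))) atTop (𝓝 (T x)) :=
    fun x hx hx1 => (((summ hx hx1).hasSum.tendsto_sum_nat).comp (tendsto_add_atTop_nat 1)).const_mul _
  have := le_of_tendsto_of_tendsto' t1 ((t2 a h0 (hab.trans h1)).sub (t2 b (h0.trans hab) h1)) key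
  have h6 := mul_pos (sub_pos.2 hab) (sub_pos.2 h1)
  linarith

theorem T_pos {x : ℝ} (h0 : 0 < x) (h1 : x < 1) : 0 ≤ T x := by
  refine mul_nonneg ?_ (tsum_nonneg fun j => by unfold f; positivity)
  have : 1 ≤ x⁻¹ := one_le_inv_iff₀.2 ⟨h0, h1.le⟩
  linarith

theorem series {y : ℝ} (hy : 0 < y) :
    ∑' k : ℕ, (-1 : ℝ) ^ k * (sinh y / sinh ((k + 1) * y)) = T (exp (-y)) := by
  set x := exp (-y) with hx
  have h0 : 0 < x := exp_pos _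
  have h1 : x < 1 := exp_lt_one_iff.2 (by linarith)
  have hs : ∀ k : ℕ, sinh ((k + 1) * y) = ((x ^ (k + 1))⁻¹ - x ^ (k + 1)) / 2 := by
    intro k
    rw [sinh_eq, hx, ← exp_nat_mul, ← exp_neg]
    congr 3 <;> push_cast <;> ring
  have hs0 : sinh y = (x⁻¹ - x) / 2 := by simpa using hs 0
  have hF : Summable (Function.uncurry fun k j : ℕ => (-1 : ℝ) ^ k * x ^ ((k + 1) * (2 * j + 1))) := by
    have g := (summable_geometric_of_lt_one h0.le h1).norm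
    refine Summable.of_norm_bounded (summable_mul_of_summable_norm g g) fun p => ?_
    simp only [Function.uncurry, norm_mul, norm_pow, norm_neg, norm_one, one_pow, one_mul,
      Real.norm_eq_abs, abs_of_pos h0]
    rw [← pow_add]
    exact pow_le_pow_of_le_one h0.le h1.le (by nlinarith)
  have e1 : ∀ k : ℕ, (-1 : ℝ) ^ k * (sinh y / sinh ((k + 1) * y)) =
      (x⁻¹ - x) * ∑' j : ℕ, (-1 : ℝ) ^ k * x ^ ((k + 1) * (2 * j + 1)) := by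
    intro k
    have hc : 0 < x ^ (k + 1) := by positivity
    have hc1 : x ^ (k + 1) < 1 := pow_lt_one₀ h0.le h1 (by omega)
    have : ∀ j : ℕ, (-1 : ℝ) ^ k * x ^ ((k + 1) * (2 * j + 1)) =
        (-1) ^ k * x ^ (k + 1) * ((x ^ (k + 1)) ^ 2) ^ j := by
      intro j; rw [pow_mul, pow_succ (x ^ (k + 1)), pow_mul]; ring
    simp_rw [this]
    rw [tsum_mul_left, tsum_geometric_of_lt_one (by positivity) (by nlinarith), hs, hs0]
    generalize x ^ (k + 1) = c at hc hc1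
    have : 1 - c ^ 2 ≠ 0 := by nlinarith
    have : c⁻¹ - c = (1 - c ^ 2) / c := by field_simp
    rw [this]
    field_simp
  have e2 : ∀ j : ℕ, ∑' k : ℕ, (-1 : ℝ) ^ k * x ^ ((k + 1) * (2 * j + 1)) = f (x ^ (2 * j + 1)) := by
    intro j
    have hc : 0 < x ^ (2 * j + 1) := by positivity
    have hc1 : x ^ (2 * j + 1) < 1 := pow_lt_one₀ h0.le h1 (by omega)
    have : ∀ k : ℕ, (-1 : ℝ) ^ k * x ^ ((k + 1) * (2 * j + 1)) =
        x ^ (2 * j + 1) * (-x ^ (2 * j + 1)) ^ k := by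
      intro k; rw [mul_comm (k + 1), pow_mul, pow_succ (x ^ (2 * j + 1)), neg_pow (x ^ (2 * j + 1))]
      ring
    simp_rw [this]
    rw [tsum_mul_left, tsum_geometric_of_abs_lt_one (by rwa [abs_neg, abs_of_pos hc]), f,
      sub_neg_eq_add, div_eq_mul_inv]
  simp_rw [e1]
  rw [tsum_mul_left, ← hF.tsum_comm]
  simp_rw [e2]
  rfl

theorem result : ∀ S : ℝ → ℝ,
    (∀ r, S r = ∑' k : ℕ, (-1 : ℝ) ^ k * (sinh (arcosh r) / sinh ((k + 1) * arcosh r))) →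
    ∃ L : ℝ, Tendsto S (𝓝[>] 1) (𝓝 L) ∧
      StrictMonoOn (fun r => if r = 1 then L else S r) (Set.Ici 1) := by
  intro S hS
  have e : ∀ r, 1 < r → S r = T (exp (-arcosh r)) := fun r hr => by rw [hS, series (arcosh_pos hr)]
  have l1 : ∀ r, 1 < r → exp (-arcosh r) < 1 := fun r hr =>
    exp_lt_one_iff.2 (by linarith [arcosh_pos hr])
  have hm : StrictMonoOn S (Set.Ioi 1) := fun a ha b hb hab => by
    rw [e a ha, e b hb]
    refine T_anti (exp_pos _) (exp_lt_exp.2 (neg_lt_neg ?_)) (l1 a ha)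
    exact (arcosh_lt_arcosh (zero_lt_one.trans ha) (zero_lt_one.trans hb)).2 hab
  have hb : BddBelow (S '' Set.Ioi 1) := ⟨0, by
    rintro _ ⟨r, hr, rfl⟩
    rw [e r hr]
    exact T_pos (exp_pos _) (l1 r hr)⟩
  refine ⟨_, hm.monotoneOn.tendsto_nhdsGT hb, fun a ha b hb' hab => ?_⟩
  have h1 : 1 < b := lt_of_le_of_lt ha hab
  simp only [h1.ne', if_false]
  split_ifs with h
  · obtain ⟨c, hc1, hc2⟩ := exists_between h1
    exact (csInf_le hb ⟨c, hc1, rfl⟩).trans_lt (hm hc1 h1 hc2)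
  · exact hm (lt_of_le_of_ne ha (Ne.symm h)) h1 hab

end Pool.Agent.Results.MP_913ab3_an.Increasing
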